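import Pool.Agent.J4.H16.BN.Contain

/-!
# Brill-Noether loci of `g^r_d`'s which lie in loci of nets (MP_54820f_ag, Q1)

A smooth irreducible projective curve `C` over `ℂ` is described by its function field `K` (its closed
points are the normalised discrete valuations of `K` that are trivial on `ℂ`) and a line bundle by
its generic fibre `K` and local generators, see `Pool/Agent/Helper395/CS/Defs.lean`. `H0 L` is the space
of global sections and `genus K` is `dim H¹(C, 𝒪_C)`.

Let `r ≥ 3` and `c = d - 2 r ≥ 0`. If `(d - r + 1) (d - r) / 2 < g` or `(c + 2) d ≤ 2 g - 2`, then every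
curve of genus `g` with a `g^r_d` has a `g^s_(d - 2 (r - s))` for all `1 ≤ s ≤ r`, in particular a net of
degree `e = d - 2 r + 4`, which is smaller than `d - 2 r + 2 + ⌊(r + 3) / 2⌋`, and all the conditions of
Q1 hold. So Q1 is false for every genus `g ≥ 7`, and it is so for all `r`, `d` with `r ≥ 3` and
`2 r ≤ d ≤ 2 (g - 1) / (d - 2 r + 2)`: for every Clifford index `c` the containment holds up to
degrees `d` (and dimensions `r`) which are proportional to `g`.

Proof. Let `L` be a line bundle of degree `d` with `h⁰(L) ≥ r + 1`, and suppose that no `L (- p - q)` has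
`r` sections. Then `L` has no base points and its sections separate the points of a general divisor
`D` of `L`. So the number of conditions which `D` imposes on `H⁰(L^n)` is at least `r + n - 1`, as
long as this is at most `d`. Summing up, `h⁰(L^N) ≥ 1 + N r + N (N - 1) / 2` for `N ≤ d - r + 1`. On the
other hand, Clifford's theorem (which is proved in `Pool/Agent/J4/H16/BN/Clif.lean`) gives
`h⁰(L^N) ≤ N d / 2 + 1` if `N d ≤ 2 g - 2`. This is a contradiction for `N = d - 2 r + 2`. (The first
alternative comes in the same way from the Riemann-Roch theorem for `L^N` with large `N`.) So we can go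
from `L` to some `L (- p - q)` with one section less and the same `c`, and continue.
-/

open Pool.Agent.Helper395.CS hiding genus map_mul map_inv
open Pool.Agent.Helper395.BC

set_option autoImplicit false

namespace Pool.Agent.Results.MP_54820f_ag.LinearRange

/-- The curve with function field `K` has a `g^r_d`: a line bundle of degree `d` with at least `r + 1`
linearly independent sections. -/
def HasSeries (K : Type) [Field K] [Algebra ℂ K] (r d : ℤ) : Prop :=
  ∃ L : LineBundle K, L.degree = d ∧ r + 1 ≤ Module.finrank ℂ (H0 L)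

/-- The Brill-Noether number `ρ(g, r, d) = g - (r + 1) (g - d + r)`. -/
def rho (g r d : ℤ) : ℤ := g - (r + 1) * (g - d + r)

/-- The conditions on `g, r, d, e` in Q1. -/
def Admissible (g r d e : ℤ) : Prop :=
  3 ≤ r ∧ d ≤ g - 1 ∧ e ≤ g - 1 ∧ rho g r d < 0 ∧ rho g 2 e < 0 ∧
    e < d - 2 * r + 2 + (r + 3) / 2

/-- The Brill-Noether locus `M^r_(g,d)` is not empty. -/
def Inhabited (g : ℕ) (r d : ℤ) : Prop :=
  ∃ (K : Type) (_ : Field K) (_ : Algebra ℂ K), IsCurve K ∧ genus K = g ∧ HasSeries K r d

/-- `M^r_(g,d)` is contained in `M^s_(g,e)`: every curve of genus `g` with a `g^r_d` has a `g^s_e`. -/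
def Contained (g : ℕ) (r d s e : ℤ) : Prop :=
  ∀ (K : Type) [Field K] [Algebra ℂ K], IsCurve K → genus K = g → HasSeries K r d → HasSeries K s e

/-- **Containments of Brill-Noether loci.** For every `g ≥ 7` there are `r, d, e` which satisfy all
conditions of Q1 such that `M^r_(g,d)` is not empty and contained in `M^2_(g,e)`. More precisely, let
`r ≥ 3`, `d ≥ 2 r`, and let `(d - r + 1) (d - r) / 2 < g` or `(d - 2 r + 2) d ≤ 2 g - 2`. Then the
conditions of Q1 hold for `e = d - 2 r + 4`, `M^r_(g,d)` is not empty, it is contained in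
`M^2_(g,e)`, and in `M^s_(g,d-2(r-s))` for all `1 ≤ s ≤ r`. -/
theorem result :
    (∀ g : ℕ, 7 ≤ g → ∃ r d e : ℤ, Admissible g r d e ∧ Inhabited g r d ∧ Contained g r d 2 e) ∧
    (∀ g r d : ℕ, 3 ≤ r → 2 * r ≤ d →
      ((d - r + 1).choose 2 < g ∨ (d - 2 * r + 2) * d + 2 ≤ 2 * g) →
      Admissible g r d (d - 2 * r + 4) ∧ Inhabited g r d ∧ Contained g r d 2 (d - 2 * r + 4) ∧
      ∀ s : ℕ, 1 ≤ s → s ≤ r → Contained g r d s (d - 2 * (r - s))) := by
  have main : ∀ g r d : ℕ, 3 ≤ r → 2 * r ≤ d →
      ((d - r + 1).choose 2 < g ∨ (d - 2 * r + 2) * d + 2 ≤ 2 * g) →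
      Admissible g r d (d - 2 * r + 4) ∧ Inhabited g r d ∧ Contained g r d 2 (d - 2 * r + 4) ∧
      ∀ s : ℕ, 1 ≤ s → s ≤ r → Contained g r d s (d - 2 * (r - s)) := by
    intro g r d hr hd h
    have hR : Pool.Agent.J4.H16.BN.Range g r d := h
    have h7 := Pool.Agent.J4.H16.BN.seven_le hr hd hR
    have hc := Pool.Agent.J4.H16.BN.conditions hr hd hR
    have hs : ∀ s : ℕ, 1 ≤ s → s ≤ r → Contained g r d s (d - 2 * (r - s)) := by
      intro s hs1 hs2 K _ _ hK hg ⟨L, h1, h2⟩
      obtain ⟨M, h3, h4, -⟩ := Pool.Agent.J4.H16.BN.descend' hK (by omega) h1 hd (by omega)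
        (by rw [hg]; exact hR) (r - s) (by omega)
      refine ⟨M, ?_, by omega⟩
      rw [h3]
      omega
    refine ⟨⟨by exact_mod_cast hr, hc⟩, Pool.Agent.J4.H16.BN.exists_curve h7 hd, ?_, hs⟩
    have h2 := hs 2 (by norm_num) (by omega)
    have e : (d : ℤ) - 2 * (r - (2 : ℕ)) = d - 2 * r + 4 := by push_cast; ring
    rw [e] at h2
    exact h2
  refine ⟨fun g hg => ?_, main⟩
  obtain ⟨h1, h2, h3, -⟩ := main g 3 6 le_rfl le_rfl (Or.inr (by omega))
  exact ⟨3, 6, _, by exact_mod_cast h1, by exact_mod_cast h2, by exact_mod_cast h3⟩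

end Pool.Agent.Results.MP_54820f_ag.LinearRange
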